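import Mathlib
import Pool.Agent.H242R3.LinFinal

set_option autoImplicit false

namespace Pool.Agent.Results.MP_9293a4_al.NonlinearArguesian

universe u

/-- The lattice `L` satisfies the higher Arguesian identity `D_n` in the variables
`a 1, …, a n, b 1, …, b n`. -/
def HigherArguesian (L : Type) [Lattice L] (n : ℕ) : Prop :=
  ∀ (a b : ℕ → L) (h : (Finset.Icc 1 (n - 1)).Nonempty),
    a n ⊓ ((Finset.Icc 1 (n - 1)).inf' h (fun i => a i ⊔ b i) ⊔ b n) ≤
      a 1 ⊔ ((Finset.Icc 1 (n - 1)).sup' h (fun i => (a i ⊔ a (i + 1)) ⊓ (b i ⊔ b (i + 1))) ⊓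
        (b 1 ⊔ b n))

/-- The lattice `L` is linear: it is isomorphic to a lattice of pairwise commuting equivalence
relations on a set. -/
def IsLinear (L : Type) [Lattice L] : Prop :=
  ∃ (S : Type u) (f : LatticeHom L (Setoid S)), Function.Injective f ∧
    ∀ (x y : L) (s t : S),
      (∃ r, (f x).r s r ∧ (f y).r r t) ↔ (∃ r, (f y).r s r ∧ (f x).r r t)

open Pool.Agent.H242R3.Lin

theorem dual_arguesian (n : ℕ) : HigherArguesian Lᵒᵈ n := by
  intro a b hne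
  have hn : 1 ≤ n - 1 := by
    obtain ⟨i, hi⟩ := hne
    rw [Finset.mem_Icc] at hi
    omega
  let A : ℕ → L := fun i => OrderDual.ofDual (a i)
  let B : ℕ → L := fun i => OrderDual.ofDual (b i)
  let P : L := OrderDual.ofDual ((Finset.Icc 1 (n - 1)).inf' hne (fun i => a i ⊔ b i))
  let Q : L := OrderDual.ofDual
    ((Finset.Icc 1 (n - 1)).sup' hne (fun i => (a i ⊔ a (i + 1)) ⊓ (b i ⊔ b (i + 1))))
  have hP : ∀ i, 1 ≤ i → i ≤ n - 1 → A i ⊓ B i ≤ P := by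
    intro i h1 h2
    have := Finset.inf'_le (fun i => a i ⊔ b i) (Finset.mem_Icc.2 ⟨h1, h2⟩)
    exact this
  have hQ : ∀ i, 1 ≤ i → i ≤ n - 1 → Q ≤ (A i ⊓ A (i + 1)) ⊔ (B i ⊓ B (i + 1)) := by
    intro i h1 h2
    have := Finset.le_sup' (fun i => (a i ⊔ a (i + 1)) ⊓ (b i ⊔ b (i + 1)))
      (Finset.mem_Icc.2 ⟨h1, h2⟩)
    exact this
  suffices h : A 1 ⊓ (Q ⊔ (B 1 ⊓ B n)) ≤ A n ⊔ (P ⊓ B n) from h
  intro x hx
  obtain ⟨hx1, hx2⟩ : x ∈ (A 1).1 ∧ x ∈ Q.1 ⊔ ((B 1).1 ⊓ (B n).1) := hx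
  have := Q.2
  obtain ⟨y, hy, z, ⟨hz1, hzn⟩, e⟩ := Subgroup.mem_sup_of_normal_left.1 hx2
  have hdec : ∀ i, 1 ≤ i → i ≤ n - 1 → ∃ w : G × G, w.1 ∈ (A i).1 ∧ w.1 ∈ (A (i + 1)).1 ∧
      w.2 ∈ (B i).1 ∧ w.2 ∈ (B (i + 1)).1 ∧ w.1 * w.2 = y := by
    intro i h1 h2
    have h3 : y ∈ ((A i).1 ⊓ (A (i + 1)).1) ⊔ ((B i).1 ⊓ (B (i + 1)).1) := hQ i h1 h2 hy
    have := (A i).2
    have := (A (i + 1)).2
    obtain ⟨u, ⟨hu1, hu2⟩, v, ⟨hv1, hv2⟩, e'⟩ := Subgroup.mem_sup_of_normal_left.1 h3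
    exact ⟨(u, v), hu1, hu2, hv1, hv2, e'⟩
  have main : ∀ i, 1 ≤ i → i ≤ n - 1 → ∃ w : G × G, w.1 ∈ (A (i + 1)).1 ∧
      w.2 ∈ (B (i + 1)).1 ∧ w.1 * w.2 = y ∧ w.1⁻¹ * x ∈ P.1 := by
    intro i h1
    induction i, h1 using Nat.le_induction with
    | base =>
      intro h2
      obtain ⟨⟨u, v⟩, hu1, hu2, hv1, hv2, e'⟩ := hdec 1 le_rfl h2
      refine ⟨(u, v), hu2, hv2, e', ?_⟩
      apply hP 1 le_rfl h2
      refine ⟨(A 1).1.mul_mem ((A 1).1.inv_mem hu1) hx1, ?_⟩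
      have : u⁻¹ * x = v * z := by
        have e'' : u * v = y := e'
        rw [← e, ← e'']; group
      show u⁻¹ * x ∈ (B 1).1
      rw [this]
      exact (B 1).1.mul_mem hv1 hz1
    | succ i h1 ih =>
      intro h2
      obtain ⟨⟨u, v⟩, hu, hv, e1, hp⟩ := ih (by omega)
      obtain ⟨⟨u', v'⟩, hu1, hu2, hv1, hv2, e2⟩ := hdec (i + 1) (by omega) h2
      refine ⟨(u', v'), hu2, hv2, e2, ?_⟩
      have e1' : u * v = y := e1
      have e2' : u' * v' = y := e2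
      have k1 : u'⁻¹ * u ∈ P.1 := by
        apply hP (i + 1) (by omega) h2
        refine ⟨(A (i + 1)).1.mul_mem ((A (i + 1)).1.inv_mem hu1) hu, ?_⟩
        have : u'⁻¹ * u = v' * v⁻¹ := by
          have : u = u' * v' * v⁻¹ := by rw [e2', ← e1']; group
          rw [this]; group
        show u'⁻¹ * u ∈ (B (i + 1)).1
        rw [this]
        exact (B (i + 1)).1.mul_mem hv1 ((B (i + 1)).1.inv_mem hv)
      have k2 := P.1.mul_mem k1 hp
      have : u'⁻¹ * u * (u⁻¹ * x) = u'⁻¹ * x := by group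
      rw [this] at k2
      exact k2
  obtain ⟨⟨u, v⟩, hu, hv, e1, hp⟩ := main (n - 1) hn le_rfl
  have hn1 : n - 1 + 1 = n := by omega
  rw [hn1] at hu hv
  have e1' : u * v = y := e1
  have k3 : u⁻¹ * x ∈ (B n).1 := by
    have : u⁻¹ * x = v * z := by rw [← e, ← e1']; group
    rw [this]
    exact (B n).1.mul_mem hv hzn
  have : x = u * (u⁻¹ * x) := by group
  show x ∈ (A n).1 ⊔ (P.1 ⊓ (B n).1)
  rw [this]
  exact Subgroup.mul_mem_sup hu ⟨hp, k3⟩

theorem finite_G : Finite G := by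
  have : Function.Injective (fun g : G => (g.a, g.c)) := by
    intro g h e
    simp only [Prod.mk.injEq] at e
    exact G.ext e.1 e.2
  exact Finite.of_injective _ this

theorem finite_L : Finite L := by
  have := finite_G
  have : Finite (Subgroup G) := by
    have : Function.Injective (fun N : Subgroup G => (N : Set G)) := SetLike.coe_injective
    exact Finite.of_injective _ this
  infer_instance

/-- There is a finite lattice that satisfies all higher Arguesian identities and is not linear. -/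
theorem result : ∃ (L : Type) (_ : Lattice L), Finite L ∧ (∀ n, 3 ≤ n → HigherArguesian L n) ∧
    ¬ IsLinear.{u} L := by
  refine ⟨Lᵒᵈ, inferInstance, ?_, fun n _ => dual_arguesian n, ?_⟩
  · exact finite_L
  · exact L_dual_not_linear

end Pool.Agent.Results.MP_9293a4_al.NonlinearArguesian
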